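import Pool.Agent.MP_9b8acd_an.Seq

set_option autoImplicit false
open Finset

namespace Pool.Agent.MP_9b8acd_an

/-- Number of elements of `I` coming before `w` in the order given by `ρ`. -/
def cnt (ρ : ℕ → ℕ) (I : Finset ℕ) (w : ℕ) : ℕ := (I.filter fun n => ρ n < ρ w).card

lemma sum_cnt (ρ : ℕ → ℕ) (hρ : Function.Injective ρ) (h : ℕ → ℝ) (I : Finset ℕ) :
    ∑ w ∈ I, h (cnt ρ I w) = ∑ k ∈ range I.card, h k := by
  classical
  induction I using Finset.induction_on_max_value ρ with
  | empty => simp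
  | insert a s has hmax ih =>
    rw [sum_insert has, card_insert_of_notMem has, sum_range_succ, ← ih, add_comm]
    congr 1
    · apply sum_congr rfl
      intro w hw
      congr 1
      unfold cnt
      rw [filter_insert, if_neg (not_lt.2 (hmax w hw))]
    · congr 1
      unfold cnt
      rw [filter_insert, if_neg (lt_irrefl _), filter_true_of_mem]
      intro x hx
      refine lt_of_le_of_ne (hmax x hx) fun e => has ?_
      rw [← hρ e]; exact hx

lemma sum_quad (c : ℝ) (n : ℕ) :
    ∑ k ∈ range n, (k : ℝ) * (c - k) = c * n * (n - 1) / 2 - (n - 1) * n * (2 * n - 1) / 6 := by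
  induction n with
  | zero => simp
  | succ n ih => rw [sum_range_succ, ih]; push_cast; ring

/-- Relative rank of `w` in its block of level `j`. -/
noncomputable def rk (ρ : ℕ → ℕ) (j w : ℕ) : ℝ := (cnt ρ (blk j w) w : ℝ) / N j

lemma Nr_pos (j : ℕ) : (0 : ℝ) < N j := by exact_mod_cast N_pos j

lemma two_le_N (j : ℕ) : (2 : ℝ) ≤ N j := by
  have h := lt_M j
  have : 2 ≤ N j := by unfold N; nlinarith
  exact_mod_cast this

lemma rk_nonneg (ρ : ℕ → ℕ) (j w : ℕ) : 0 ≤ rk ρ j w := by
  have := Nr_pos j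
  unfold rk; positivity

lemma rk_le_one (ρ : ℕ → ℕ) (j w : ℕ) : rk ρ j w ≤ 1 := by
  unfold rk
  rw [div_le_one (Nr_pos j), ← card_blk j w]
  exact_mod_cast card_filter_le _ _

lemma sum_rk_blk (ρ : ℕ → ℕ) (hρ : Function.Injective ρ) (j w : ℕ) :
    (N j : ℝ) / 8 ≤ ∑ v ∈ blk j w, rk ρ j v * (1 - rk ρ j v) := by
  have hN := Nr_pos j
  have h2 := two_le_N j
  have e1 : ∑ v ∈ blk j w, rk ρ j v * (1 - rk ρ j v) =
      ∑ v ∈ blk j w, (fun k : ℕ => (k : ℝ) * (N j - k) / (N j) ^ 2) (cnt ρ (blk j w) v) := by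
    apply sum_congr rfl
    intro v hv
    simp only [rk, blk_eq_of_mem hv]
    field_simp
  rw [e1, sum_cnt ρ hρ (fun k : ℕ => (k : ℝ) * (N j - k) / (N j) ^ 2), card_blk, ← sum_div,
    sum_quad, le_div_iff₀ (by positivity)]
  nlinarith [mul_nonneg hN.le (mul_nonneg (sub_nonneg.2 h2) (by linarith : (0 : ℝ) ≤ N j + 2))]

lemma sum_rk (ρ : ℕ → ℕ) (hρ : Function.Injective ρ) {j L : ℕ} (hj : j ≤ L) :
    (N L : ℝ) / 8 ≤ ∑ v ∈ blk L 0, rk ρ j v * (1 - rk ρ j v) := by
  have hN := Nr_pos j
  have e1 : ∑ w ∈ blk L 0, ∑ v ∈ blk j w, rk ρ j v * (1 - rk ρ j v) =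
      ∑ v ∈ blk L 0, ∑ _w ∈ blk j v, rk ρ j v * (1 - rk ρ j v) := by
    apply sum_comm'
    intro w v
    simp only [mem_blk]
    constructor
    · rintro ⟨h1, h2⟩
      exact ⟨h2.symm, (div_eq_of_le hj h2).trans h1⟩
    · rintro ⟨h1, h2⟩
      exact ⟨(div_eq_of_le hj h1).trans h2, h1.symm⟩
  have e2 : ∑ w ∈ blk L 0, (N j : ℝ) / 8 ≤
      ∑ w ∈ blk L 0, ∑ v ∈ blk j w, rk ρ j v * (1 - rk ρ j v) :=
    sum_le_sum fun w _ => sum_rk_blk ρ hρ j w
  rw [e1] at e2
  simp only [sum_const, card_blk, nsmul_eq_mul] at e2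
  rw [← mul_sum] at e2
  have : (N j : ℝ) * (N L / 8) ≤ N j * ∑ v ∈ blk L 0, rk ρ j v * (1 - rk ρ j v) := by linarith
  exact le_of_mul_le_mul_left this hN

lemma exists_good (ρ : ℕ → ℕ) (hρ : Function.Injective ρ) (L : ℕ) :
    ∃ w, (L : ℝ) / 8 ≤ ∑ j ∈ range L, rk ρ j w * (1 - rk ρ j w) := by
  have h1 : ∑ _w ∈ blk L 0, (L : ℝ) / 8 ≤
      ∑ w ∈ blk L 0, ∑ j ∈ range L, rk ρ j w * (1 - rk ρ j w) := by
    rw [sum_comm, sum_const, card_blk, nsmul_eq_mul]
    calc (N L : ℝ) * (L / 8) = ∑ _j ∈ range L, (N L : ℝ) / 8 := by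
          rw [sum_const, card_range, nsmul_eq_mul]; ring
      _ ≤ _ := sum_le_sum fun j hj => sum_rk ρ hρ (mem_range.1 hj).le
  obtain ⟨w, -, hw⟩ := exists_le_of_sum_le ⟨0, self_mem_blk L 0⟩ h1
  exact ⟨w, hw⟩

/-- One layer of the test vector. -/
noncomputable def layer (ρ : ℕ → ℕ) (w j n : ℕ) : ℝ :=
  if n ∈ blk j w then ((if ρ n < ρ w then 1 else 0) - rk ρ j w) / M j else 0

/-- The test vector. -/
noncomputable def test (ρ : ℕ → ℕ) (w L n : ℕ) : ℝ := ∑ j ∈ range L, layer ρ w j n

lemma abs_layer_le (ρ : ℕ → ℕ) (w j n : ℕ) :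
    |layer ρ w j n| ≤ if n ∈ blk j w then 1 / (M j : ℝ) else 0 := by
  have h0 := rk_nonneg ρ j w
  have h1 := rk_le_one ρ j w
  have hM := Mr_pos j
  unfold layer
  split_ifs with h h'
  · rw [abs_div, abs_of_pos hM]
    apply div_le_div_of_nonneg_right _ hM.le
    rw [abs_le]; constructor <;> linarith
  · rw [abs_div, abs_of_pos hM]
    apply div_le_div_of_nonneg_right _ hM.le
    rw [abs_le]; constructor <;> linarith
  · simp

lemma sum_layer_self (ρ : ℕ → ℕ) (w j : ℕ) : ∑ n ∈ blk j w, layer ρ w j n = 0 := by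
  have hN := Nr_pos j
  have e : ∑ n ∈ blk j w, layer ρ w j n =
      ∑ n ∈ blk j w, ((if ρ n < ρ w then (1 : ℝ) else 0) - rk ρ j w) / M j :=
    sum_congr rfl fun n hn => by simp only [layer, if_pos hn]
  rw [e, ← sum_div, sum_sub_distrib, sum_boole, sum_const, card_blk, nsmul_eq_mul, rk, cnt]
  field_simp
  simp

lemma sum_layer_of_le (ρ : ℕ → ℕ) (w v : ℕ) {j k : ℕ} (h : j ≤ k) :
    ∑ n ∈ blk k v, layer ρ w j n = 0 := by
  by_cases hw : w ∈ blk k v
  · rw [← sum_layer_self ρ w j]
    symm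
    apply sum_subset
    · intro n hn
      rw [mem_blk] at *
      exact (div_eq_of_le h hn).trans hw
    · intro n _ hn
      simp only [layer, if_neg hn]
  · apply sum_eq_zero
    intro n hn
    have : n ∉ blk j w := by
      intro h'
      apply hw
      rw [mem_blk] at *
      exact (div_eq_of_le h h').symm.trans hn
    simp only [layer, if_neg this]

lemma sum_geom (L : ℕ) : ∑ j ∈ range L, (∑ k ∈ range j, (M k : ℝ)) / M j ≤ 2 - 4 / 2 ^ L + 2 := by
  induction L with
  | zero => simp; norm_num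
  | succ L ih =>
    rw [sum_range_succ]
    have h : (∑ k ∈ range L, (M k : ℝ)) / M L ≤ 2 / 2 ^ L := by
      rcases L with _ | L
      · simp
      · have h1 := sum_M_le L
        have h2 := Mr_pos L
        have h3 : (M (L + 1) : ℝ) = 2 ^ (L + 1) * M L := by rw [M_succ]; push_cast; ring
        rw [h3, div_le_div_iff₀ (by positivity) (by positivity)]
        have : (0 : ℝ) < 2 ^ (L + 1) := by positivity
        nlinarith
    have e : (4 : ℝ) / 2 ^ (L + 1) = 2 / 2 ^ L := by field_simp; ring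
    have e' : (4 : ℝ) / 2 ^ L = 2 * (2 / 2 ^ L) := by ring
    linarith

lemma val_test_le (ρ : ℕ → ℕ) (w L : ℕ) (i : Idx) : |val i (test ρ w L)| ≤ 4 := by
  classical
  rcases i with G | ⟨v, K⟩
  · rcases G.eq_empty_or_nonempty with rfl | hG
    · simp [val]
    apply val_inl_le (by norm_num)
    have hm0 : (0 : ℝ) < G.card := by exact_mod_cast hG.card_pos
    set s := Real.sqrt G.card with hs
    have hs0 : 0 < s := Real.sqrt_pos.2 hm0
    have hss : s * s = G.card := Real.mul_self_sqrt hm0.le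
    obtain ⟨i0, hsmall, hlarge⟩ := exists_threshold s hs0
    have h1 : ∀ j, ∑ n ∈ G, |layer ρ w j n| ≤ ((G ∩ blk j w).card : ℝ) / M j := by
      intro j
      calc _ ≤ ∑ n ∈ G, if n ∈ blk j w then 1 / (M j : ℝ) else 0 :=
            sum_le_sum fun n _ => abs_layer_le ρ w j n
        _ = _ := by
            rw [← sum_filter, filter_mem_eq_inter, sum_const, nsmul_eq_mul, mul_one_div]
    calc ∑ n ∈ G, |test ρ w L n| ≤ ∑ n ∈ G, ∑ j ∈ range L, |layer ρ w j n| :=
          sum_le_sum fun n _ => abs_sum_le_sum_abs _ _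
      _ = ∑ j ∈ range L, ∑ n ∈ G, |layer ρ w j n| := sum_comm
      _ ≤ ∑ j ∈ range L, ((G ∩ blk j w).card : ℝ) / M j := sum_le_sum fun j _ => h1 j
      _ = ∑ j ∈ range (min L i0), ((G ∩ blk j w).card : ℝ) / M j +
            ∑ j ∈ Ico i0 L, ((G ∩ blk j w).card : ℝ) / M j := sum_split _ L i0
      _ ≤ ∑ j ∈ range (min L i0), (M j : ℝ) + ∑ j ∈ Ico i0 L, (s * s) * (1 / M j) := by
          apply add_le_add
          · apply sum_le_sum
            intro j _
            rw [div_le_iff₀ (Mr_pos j), ← sq, ← Nr, ← card_blk j w]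
            exact_mod_cast card_le_card inter_subset_right
          · apply sum_le_sum
            intro j _
            rw [mul_one_div, hss]
            apply div_le_div_of_nonneg_right _ (Mr_pos j).le
            exact_mod_cast card_le_card inter_subset_left
      _ ≤ 2 * s + (s * s) * (2 / s) := by
          rw [← mul_sum]
          exact add_le_add (hsmall L) (mul_le_mul_of_nonneg_left (hlarge L) (by positivity))
      _ = 4 * s := by field_simp; ring
  · have e : val (Sum.inr (v, K)) (test ρ w L) =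
        ∑ j ∈ range L, ∑ k ∈ range K, (∑ n ∈ blk k v, layer ρ w j n) / M k := by
      simp only [val, test]
      rw [sum_comm]
      apply sum_congr rfl
      intro k _
      rw [sum_comm, sum_div]
    rw [e]
    have h1 : ∀ j, |∑ k ∈ range K, (∑ n ∈ blk k v, layer ρ w j n) / (M k : ℝ)| ≤
        (∑ k ∈ range j, (M k : ℝ)) / M j := by
      intro j
      have hj := Mr_pos j
      calc _ ≤ ∑ k ∈ range K, |(∑ n ∈ blk k v, layer ρ w j n) / (M k : ℝ)| :=
            abs_sum_le_sum_abs _ _
        _ ≤ ∑ k ∈ range K, if k ∈ range j then (M k : ℝ) / M j else 0 := by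
            apply sum_le_sum
            intro k _
            have hk := Mr_pos k
            split_ifs with hkj
            · rw [abs_div, abs_of_pos hk, div_le_iff₀ hk]
              calc _ ≤ ∑ n ∈ blk k v, |layer ρ w j n| := abs_sum_le_sum_abs _ _
                _ ≤ ∑ _n ∈ blk k v, 1 / (M j : ℝ) := by
                    apply sum_le_sum
                    intro n _
                    refine (abs_layer_le ρ w j n).trans ?_
                    split_ifs
                    · exact le_rfl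
                    · positivity
                _ = _ := by rw [sum_const, card_blk, nsmul_eq_mul, Nr]; ring
            · rw [sum_layer_of_le ρ w v (by simpa using hkj)]; simp
        _ = ∑ k ∈ range K ∩ range j, (M k : ℝ) / M j := by
            rw [← sum_filter, filter_mem_eq_inter]
        _ ≤ ∑ k ∈ range j, (M k : ℝ) / M j :=
            sum_le_sum_of_subset_of_nonneg inter_subset_right fun k _ _ => by
              have := Mr_pos k; positivity
        _ = _ := by rw [sum_div]
    calc _ ≤ ∑ j ∈ range L, |∑ k ∈ range K, (∑ n ∈ blk k v, layer ρ w j n) / (M k : ℝ)| :=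
          abs_sum_le_sum_abs _ _
      _ ≤ ∑ j ∈ range L, (∑ k ∈ range j, (M k : ℝ)) / M j := sum_le_sum fun j _ => h1 j
      _ ≤ 2 - 4 / 2 ^ L + 2 := sum_geom L
      _ ≤ 4 := by have : (0 : ℝ) ≤ 4 / 2 ^ L := by positivity
                  linarith

lemma le_val_test (ρ : ℕ → ℕ) (w L : ℕ) :
    ∑ j ∈ range L, rk ρ j w * (1 - rk ρ j w) ≤
      val (Sum.inr (w, L)) (fun n => if ρ n < ρ w then test ρ w L n else 0) := by
  simp only [val]
  apply sum_le_sum
  intro k hk
  have hM := Mr_pos k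
  have hN := Nr_pos k
  have hnn : ∀ j n, 0 ≤ if ρ n < ρ w then layer ρ w j n else 0 := by
    intro j n
    have h1 := rk_le_one ρ j w
    have h2 := Mr_pos j
    split_ifs with h
    · unfold layer
      rw [if_pos h]
      split_ifs
      · apply div_nonneg <;> linarith
      · exact le_rfl
    · exact le_rfl
  have h1 : ∀ n ∈ blk k w, (if ρ n < ρ w then (1 - rk ρ k w) / M k else 0) ≤
      if ρ n < ρ w then test ρ w L n else 0 := by
    intro n hn
    have e1 : (if ρ n < ρ w then test ρ w L n else 0) =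
        ∑ j ∈ range L, if ρ n < ρ w then layer ρ w j n else 0 := by
      split_ifs <;> simp [test]
    have e2 : (if ρ n < ρ w then (1 - rk ρ k w) / M k else 0) =
        if ρ n < ρ w then layer ρ w k n else 0 := by
      split_ifs with h
      · simp only [layer, if_pos hn, if_pos h]
      · rfl
    rw [e1, e2]
    exact single_le_sum (f := fun j => if ρ n < ρ w then layer ρ w j n else 0)
      (fun j _ => hnn j n) hk
  rw [le_div_iff₀ hM]
  refine le_trans (le_of_eq ?_) (sum_le_sum h1)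
  rw [← sum_filter, sum_const, nsmul_eq_mul]
  have e3 : ((blk k w).filter fun n => ρ n < ρ w).card = rk ρ k w * (M k : ℝ) ^ 2 := by
    rw [rk, cnt, ← Nr]; field_simp
  rw [e3]
  field_simp

lemma test_eq_zero (ρ : ℕ → ℕ) (w L n : ℕ) (hn : n ∉ blk L w) : test ρ w L n = 0 := by
  apply sum_eq_zero
  intro j hj
  have : n ∉ blk j w := by
    intro h
    apply hn
    rw [mem_blk] at *
    exact div_eq_of_le (mem_range.1 hj).le h
  simp only [layer, if_neg this]

/-- For every ordering and every `L` there is a finitely supported vector of norm at most `4`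
with an initial segment of norm at least `L / 8`. -/
theorem lower_seq (ρ : ℕ → ℕ) (hρ : Function.Injective ρ) (L : ℕ) :
    ∃ (a : ℕ → ℝ) (S : Finset ℕ) (r : ℕ) (i0 : Idx), (∀ n, n ∉ S → a n = 0) ∧
      (∀ i, |val i a| ≤ 4) ∧ (L : ℝ) / 8 ≤ val i0 (fun n => if ρ n < r then a n else 0) := by
  obtain ⟨w, hw⟩ := exists_good ρ hρ L
  exact ⟨test ρ w L, blk L w, ρ w, Sum.inr (w, L), test_eq_zero ρ w L, val_test_le ρ w L,
    hw.trans (le_val_test ρ w L)⟩

end Pool.Agent.MP_9b8acd_an
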