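import Mathlib

set_option autoImplicit false
open Finset

namespace Pool.Agent.MP_9b8acd_an

/-- Side lengths: the blocks of level `j` have `(M j)^2` elements. -/
def M : ℕ → ℕ
  | 0 => 2
  | j + 1 => 2 ^ (j + 1) * M j

/-- Block sizes. -/
def N (j : ℕ) : ℕ := M j ^ 2

lemma M_pos (j : ℕ) : 0 < M j := by
  induction j with
  | zero => simp [M]
  | succ j ih => simp only [M]; positivity

lemma M_succ (j : ℕ) : M (j + 1) = 2 ^ (j + 1) * M j := rfl

lemma two_M_le (j : ℕ) : 2 * M j ≤ M (j + 1) := by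
  rw [M_succ]
  apply Nat.mul_le_mul_right
  calc 2 = 2 ^ 1 := by norm_num
    _ ≤ 2 ^ (j + 1) := Nat.pow_le_pow_right (by norm_num) (by omega)

lemma lt_M (j : ℕ) : j + 1 < M j := by
  induction j with
  | zero => simp [M]
  | succ j ih => have := two_M_le j; omega

lemma M_dvd {k j : ℕ} (h : k ≤ j) : M k ∣ M j := by
  induction j, h using Nat.le_induction with
  | base => exact dvd_rfl
  | succ j _ ih => rw [M_succ]; exact Dvd.dvd.mul_left ih _

lemma N_pos (j : ℕ) : 0 < N j := pow_pos (M_pos j) 2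

lemma N_dvd {k j : ℕ} (h : k ≤ j) : N k ∣ N j := pow_dvd_pow_of_dvd (M_dvd h) 2

lemma Mr_pos (j : ℕ) : (0 : ℝ) < M j := by exact_mod_cast M_pos j

lemma Nr (j : ℕ) : (N j : ℝ) = (M j : ℝ) ^ 2 := by simp [N]

lemma two_Mr_le (j : ℕ) : 2 * (M j : ℝ) ≤ M (j + 1) := by exact_mod_cast two_M_le j

lemma sum_M_le (i : ℕ) : ∑ j ∈ range (i + 1), (M j : ℝ) ≤ 2 * M i := by
  induction i with
  | zero => simp; have := Mr_pos 0; linarith
  | succ i ih => rw [sum_range_succ]; have := two_Mr_le i; linarith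

lemma sum_inv_M_le (i k : ℕ) :
    ∑ j ∈ Ico i (i + k), (1 / M j : ℝ) ≤ 2 / M i - 2 / M (i + k) := by
  induction k with
  | zero => simp
  | succ k ih =>
    rw [← add_assoc, sum_Ico_succ_top (by omega)]
    have h1 := two_Mr_le (i + k)
    have h2 := Mr_pos (i + k)
    have h3 := Mr_pos (i + k + 1)
    have h4 : (2 : ℝ) / M (i + k + 1) ≤ 1 / M (i + k) := by
      rw [div_le_div_iff₀ h3 h2]; linarith
    have h5 : (2 : ℝ) / M (i + k) = 2 * (1 / M (i + k)) := by ring
    linarith

lemma sum_inv_M_le' (i L : ℕ) : ∑ j ∈ Ico i L, (1 / M j : ℝ) ≤ 2 / M i := by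
  rcases le_or_gt i L with h | h
  · obtain ⟨k, rfl⟩ := Nat.exists_eq_add_of_le h
    have := sum_inv_M_le i k
    have h2 : (0 : ℝ) ≤ 2 / M (i + k) := by have := Mr_pos (i + k); positivity
    linarith
  · rw [Ico_eq_empty (by omega)]; simp; have := Mr_pos i; positivity

/-- The threshold level for a scale `s`. -/
lemma exists_threshold (s : ℝ) (hs : 0 < s) :
    ∃ i0 : ℕ, (∀ L, ∑ j ∈ range (min L i0), (M j : ℝ) ≤ 2 * s) ∧
      (∀ L, ∑ j ∈ Ico i0 L, (1 / M j : ℝ) ≤ 2 / s) := by
  classical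
  have hex : ∃ j, s < M j := by
    obtain ⟨n, hn⟩ := exists_nat_gt s
    refine ⟨n, hn.trans ?_⟩
    have := lt_M n
    exact_mod_cast (by omega : n < M n)
  refine ⟨Nat.find hex, ?_, ?_⟩
  · intro L
    rcases Nat.eq_zero_or_pos (min L (Nat.find hex)) with h | h
    · rw [h]; simp; linarith
    · obtain ⟨i, hi⟩ : ∃ i, min L (Nat.find hex) = i + 1 := ⟨_, (Nat.succ_pred_eq_of_pos h).symm⟩
      rw [hi]
      have h1 : i < Nat.find hex := by omega
      have h2 := Nat.find_min hex h1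
      have h3 := sum_M_le i
      push Not at h2
      linarith
  · intro L
    have h1 := Nat.find_spec hex
    refine (sum_inv_M_le' _ L).trans ?_
    exact div_le_div_of_nonneg_left (by norm_num) hs h1.le

lemma sum_split (f : ℕ → ℝ) (L i0 : ℕ) :
    ∑ j ∈ range L, f j = ∑ j ∈ range (min L i0), f j + ∑ j ∈ Ico i0 L, f j := by
  rcases le_total L i0 with h | h
  · rw [min_eq_left h, Ico_eq_empty (by omega)]; simp
  · rw [min_eq_right h, sum_range_add_sum_Ico _ h]

/-- The block of level `j` containing `w`. -/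
def blk (j w : ℕ) : Finset ℕ := Ico (w / N j * N j) (w / N j * N j + N j)

lemma mem_blk {j w n : ℕ} : n ∈ blk j w ↔ n / N j = w / N j := by
  have h := N_pos j
  rw [blk, mem_Ico, Nat.div_eq_iff h]
  omega

lemma card_blk (j w : ℕ) : (blk j w).card = N j := by simp [blk]

lemma self_mem_blk (j w : ℕ) : w ∈ blk j w := mem_blk.2 rfl

lemma div_eq_of_le {k j n w : ℕ} (h : k ≤ j) (hn : n / N k = w / N k) : n / N j = w / N j := by
  obtain ⟨c, hc⟩ := N_dvd h
  rw [hc, ← Nat.div_div_eq_div_mul, ← Nat.div_div_eq_div_mul, hn]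

lemma blk_eq_of_mem {j w n : ℕ} (h : n ∈ blk j w) : blk j n = blk j w := by
  ext m; rw [mem_blk, mem_blk, mem_blk.1 h]

/-- Index set of the norming functionals. -/
abbrev Idx : Type := Finset ℕ ⊕ (ℕ × ℕ)

/-- The norming functionals. -/
noncomputable def val : Idx → (ℕ → ℝ) → ℝ
  | Sum.inl G, a => (∑ n ∈ G, a n) / Real.sqrt G.card
  | Sum.inr p, a => ∑ j ∈ range p.2, (∑ n ∈ blk j p.1, a n) / M j

lemma val_add (i : Idx) (a b : ℕ → ℝ) : val i (a + b) = val i a + val i b := by
  rcases i with G | p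
  · simp [val, sum_add_distrib, add_div]
  · simp [val, sum_add_distrib, add_div]

lemma val_smul (i : Idx) (c : ℝ) (a : ℕ → ℝ) : val i (c • a) = c * val i a := by
  rcases i with G | p
  · simp [val, ← mul_sum, mul_div_assoc]
  · simp [val, ← mul_sum, mul_div_assoc]

lemma val_singleton (n : ℕ) (a : ℕ → ℝ) : val (Sum.inl {n}) a = a n := by
  simp [val]

lemma continuous_val (i : Idx) : Continuous (val i) := by
  rcases i with G | p
  · show Continuous fun a : ℕ → ℝ => (∑ n ∈ G, a n) / Real.sqrt G.card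
    fun_prop
  · show Continuous fun a : ℕ → ℝ => ∑ j ∈ range p.2, (∑ n ∈ blk j p.1, a n) / (M j : ℝ)
    fun_prop

lemma abs_sum_le_of_val {b : ℕ → ℝ} {R : ℝ} (h : ∀ i, |val i b| ≤ R) (G : Finset ℕ) :
    |∑ n ∈ G, b n| ≤ R * Real.sqrt G.card := by
  rcases G.eq_empty_or_nonempty with rfl | hG
  · simp
  · have h1 := h (Sum.inl G)
    have h2 : 0 < Real.sqrt G.card := Real.sqrt_pos.2 (by exact_mod_cast hG.card_pos)
    simp only [val, abs_div, abs_of_pos h2] at h1
    rwa [div_le_iff₀ h2] at h1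

lemma sum_abs_le_of_val {b : ℕ → ℝ} {R : ℝ} (hR : 0 ≤ R) (h : ∀ i, |val i b| ≤ R)
    (G : Finset ℕ) : ∑ n ∈ G, |b n| ≤ 2 * R * Real.sqrt G.card := by
  classical
  rw [← sum_filter_add_sum_filter_not G (fun n => 0 ≤ b n)]
  have e1 : ∑ n ∈ G with 0 ≤ b n, |b n| = ∑ n ∈ G with 0 ≤ b n, b n :=
    sum_congr rfl fun n hn => abs_of_nonneg (mem_filter.1 hn).2
  have e2 : ∑ n ∈ G with ¬ 0 ≤ b n, |b n| = - ∑ n ∈ G with ¬ 0 ≤ b n, b n := by
    rw [← sum_neg_distrib]
    exact sum_congr rfl fun n hn => abs_of_neg (not_le.1 (mem_filter.1 hn).2)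
  have h1 := abs_sum_le_of_val h (G.filter fun n => 0 ≤ b n)
  have h2 := abs_sum_le_of_val h (G.filter fun n => ¬ 0 ≤ b n)
  have m1 : Real.sqrt (G.filter fun n => 0 ≤ b n).card ≤ Real.sqrt G.card :=
    Real.sqrt_le_sqrt (by exact_mod_cast card_filter_le _ _)
  have m2 : Real.sqrt (G.filter fun n => ¬ 0 ≤ b n).card ≤ Real.sqrt G.card :=
    Real.sqrt_le_sqrt (by exact_mod_cast card_filter_le _ _)
  have k1 := mul_le_mul_of_nonneg_left m1 hR
  have k2 := mul_le_mul_of_nonneg_left m2 hR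
  have l1 := le_abs_self (∑ n ∈ G with 0 ≤ b n, b n)
  have l2 := neg_le_abs (∑ n ∈ G with ¬ 0 ≤ b n, b n)
  rw [e1, e2]
  linarith

lemma val_inl_le {u : ℕ → ℝ} {K : ℝ} (hK : 0 ≤ K) (G : Finset ℕ)
    (h : ∑ n ∈ G, |u n| ≤ K * Real.sqrt G.card) : |val (Sum.inl G) u| ≤ K := by
  rcases G.eq_empty_or_nonempty with rfl | hG
  · simpa [val] using hK
  · have h2 : 0 < Real.sqrt G.card := Real.sqrt_pos.2 (by exact_mod_cast hG.card_pos)
    simp only [val, abs_div, abs_of_pos h2]
    rw [div_le_iff₀ h2]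
    exact (abs_sum_le_sum_abs _ _).trans h

lemma card_inter_le_sqrt (G F : Finset ℕ) (m : ℕ) (hF : F.card ≤ m) :
    ((G ∩ F).card : ℝ) ≤ Real.sqrt G.card * Real.sqrt m := by
  rw [← Real.sqrt_mul (by positivity)]
  apply Real.le_sqrt_of_sq_le
  have h1 : (G ∩ F).card ≤ G.card := card_le_card inter_subset_left
  have h2 : (G ∩ F).card ≤ m := (card_le_card inter_subset_right).trans hF
  have : (G ∩ F).card ^ 2 ≤ G.card * m := by rw [sq]; exact Nat.mul_le_mul h1 h2
  exact_mod_cast this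

/-- The almost-greedy inequality at the level of coefficient sequences. -/
theorem almost_greedy_seq (a : ℕ → ℝ) (A B : Finset ℕ)
    (hA : ∀ i ∈ A, ∀ j, j ∉ A → |a j| ≤ |a i|) (hB : B.card ≤ A.card) (R : ℝ) (hR : 0 ≤ R)
    (h : ∀ i, |val i (fun n => if n ∈ B then 0 else a n)| ≤ R) (i : Idx) :
    |val i (fun n => if n ∈ A then 0 else a n)| ≤ 14 * R := by
  classical
  set b : ℕ → ℝ := fun n => if n ∈ B then 0 else a n with hb
  set u : ℕ → ℝ := fun n => if n ∈ A then 0 else a n with hu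
  rcases (A \ B).eq_empty_or_nonempty with hD | hD
  · have hAB : A = B := eq_of_subset_of_card_le (sdiff_eq_empty_iff_subset.1 hD) hB
    have : u = b := by rw [hu, hb, hAB]
    rw [this]
    have := h i
    linarith
  have hF : (B \ A).card ≤ (A \ B).card := by
    have h1 := card_sdiff_add_card_inter A B
    have h2 := card_sdiff_add_card_inter B A
    rw [inter_comm] at h2
    omega
  set m := (A \ B).card with hm
  have hm0 : (0 : ℝ) < m := by exact_mod_cast hD.card_pos
  set s := Real.sqrt m with hs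
  have hs0 : 0 < s := Real.sqrt_pos.2 hm0
  have hss : s * s = m := Real.mul_self_sqrt hm0.le
  have hDb : ∑ n ∈ A \ B, |b n| ≤ 2 * R * s := sum_abs_le_of_val hR h _
  set t := 2 * R / s with ht
  have ht0 : 0 ≤ t := by positivity
  have hts : t * s = 2 * R := by rw [ht]; field_simp
  have hat : ∀ n, n ∉ A → |a n| ≤ t := by
    intro n hn
    have h1 : ∑ _k ∈ A \ B, |a n| ≤ ∑ k ∈ A \ B, |b k| := by
      apply sum_le_sum
      intro k hk
      rw [mem_sdiff] at hk
      simp only [hb, if_neg hk.2]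
      exact hA k hk.1 n hn
    rw [sum_const, nsmul_eq_mul, ← hm] at h1
    rw [ht, le_div_iff₀ hs0]
    have : s * (|a n| * s) ≤ s * (2 * R) := by
      have e : s * (|a n| * s) = m * |a n| := by rw [← hss]; ring
      rw [e]; linarith
    exact le_of_mul_le_mul_left this hs0
  have hut : ∀ n, |u n| ≤ t := by
    intro n
    by_cases hn : n ∈ A
    · simp [hu, hn, ht0]
    · simp only [hu, if_neg hn]; exact hat n hn
  have hub : ∀ n, |u n - b n| ≤ (if n ∈ A \ B then |b n| else 0) + (if n ∈ B \ A then t else 0) := by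
    intro n
    by_cases h1 : n ∈ A <;> by_cases h2 : n ∈ B <;> simp [hu, hb, h1, h2]
    exact hat n h1
  have hFs : ∀ G : Finset ℕ, ∑ n ∈ G, (if n ∈ B \ A then t else 0) = t * (G ∩ (B \ A)).card := by
    intro G
    rw [← sum_filter, filter_mem_eq_inter, sum_const, nsmul_eq_mul, mul_comm]
  rcases i with G | ⟨w, L⟩
  · apply (val_inl_le (K := 4 * R) (by positivity) G _).trans (by linarith)
    have h1 : ∀ n, |u n| ≤ |b n| + (if n ∈ B \ A then t else 0) := by
      intro n
      by_cases h1 : n ∈ A <;> by_cases h2 : n ∈ B <;> simp [hu, hb, h1, h2]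
      exact hat n h1
    calc ∑ n ∈ G, |u n| ≤ ∑ n ∈ G, (|b n| + (if n ∈ B \ A then t else 0)) :=
          sum_le_sum fun n _ => h1 n
      _ = ∑ n ∈ G, |b n| + t * (G ∩ (B \ A)).card := by rw [sum_add_distrib, hFs]
      _ ≤ 2 * R * Real.sqrt G.card + t * (Real.sqrt G.card * s) := by
          have := card_inter_le_sqrt G (B \ A) m hF
          have := sum_abs_le_of_val hR h G
          gcongr
      _ = 4 * R * Real.sqrt G.card := by
          have : t * (Real.sqrt G.card * s) = (t * s) * Real.sqrt G.card := by ring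
          rw [this, hts]; ring
  · obtain ⟨i0, hsmall, hlarge⟩ := exists_threshold s hs0
    have hdiff : ∀ G : Finset ℕ, |∑ n ∈ G, u n - ∑ n ∈ G, b n| ≤ 4 * R * s := by
      intro G
      rw [← sum_sub_distrib]
      calc |∑ n ∈ G, (u n - b n)| ≤ ∑ n ∈ G, |u n - b n| := abs_sum_le_sum_abs _ _
        _ ≤ ∑ n ∈ G, ((if n ∈ A \ B then |b n| else 0) + (if n ∈ B \ A then t else 0)) :=
            sum_le_sum fun n _ => hub n
        _ = ∑ n ∈ G ∩ (A \ B), |b n| + t * (G ∩ (B \ A)).card := by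
            rw [sum_add_distrib, hFs, ← sum_filter, filter_mem_eq_inter]
        _ ≤ 2 * R * s + t * m := by
            have h1 : ∑ n ∈ G ∩ (A \ B), |b n| ≤ ∑ n ∈ A \ B, |b n| :=
              sum_le_sum_of_subset_of_nonneg inter_subset_right fun _ _ _ => abs_nonneg _
            have h2 : ((G ∩ (B \ A)).card : ℝ) ≤ m := by
              exact_mod_cast (card_le_card inter_subset_right).trans hF
            have h3 := mul_le_mul_of_nonneg_left h2 ht0
            linarith
        _ = 4 * R * s := by rw [← hss, ← mul_assoc, hts]; ring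
    have e1 : val (Sum.inr (w, L)) u =
        ∑ j ∈ range (min L i0), (∑ n ∈ blk j w, u n) / M j +
        ∑ j ∈ Ico i0 L, (∑ n ∈ blk j w, u n - ∑ n ∈ blk j w, b n) / M j +
        (val (Sum.inr (w, L)) b - val (Sum.inr (w, min L i0)) b) := by
      simp only [val]
      rw [sum_split _ L i0, sum_split (fun j => (∑ n ∈ blk j w, b n) / (M j : ℝ)) L i0]
      simp only [sub_div, sum_sub_distrib]
      ring
    have b1 : |∑ j ∈ range (min L i0), (∑ n ∈ blk j w, u n) / (M j : ℝ)| ≤ 4 * R := by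
      calc _ ≤ ∑ j ∈ range (min L i0), |(∑ n ∈ blk j w, u n) / (M j : ℝ)| :=
            abs_sum_le_sum_abs _ _
        _ ≤ ∑ j ∈ range (min L i0), t * M j := by
            apply sum_le_sum
            intro j _
            have hM := Mr_pos j
            rw [abs_div, abs_of_pos hM, div_le_iff₀ hM]
            calc _ ≤ ∑ n ∈ blk j w, |u n| := abs_sum_le_sum_abs _ _
              _ ≤ ∑ _n ∈ blk j w, t := sum_le_sum fun n _ => hut n
              _ = t * M j * M j := by rw [sum_const, card_blk, nsmul_eq_mul, Nr]; ring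
        _ ≤ t * (2 * s) := by rw [← mul_sum]; exact mul_le_mul_of_nonneg_left (hsmall L) ht0
        _ = 4 * R := by linarith
    have b2 : |∑ j ∈ Ico i0 L, (∑ n ∈ blk j w, u n - ∑ n ∈ blk j w, b n) / (M j : ℝ)| ≤ 8 * R := by
      calc _ ≤ ∑ j ∈ Ico i0 L, |(∑ n ∈ blk j w, u n - ∑ n ∈ blk j w, b n) / (M j : ℝ)| :=
            abs_sum_le_sum_abs _ _
        _ ≤ ∑ j ∈ Ico i0 L, (4 * R * s) * (1 / M j) := by
            apply sum_le_sum
            intro j _
            have hM := Mr_pos j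
            rw [abs_div, abs_of_pos hM, mul_one_div]
            exact div_le_div_of_nonneg_right (hdiff _) hM.le
        _ ≤ (4 * R * s) * (2 / s) := by
            rw [← mul_sum]; exact mul_le_mul_of_nonneg_left (hlarge L) (by positivity)
        _ = 8 * R := by field_simp; ring
    have b3 := h (Sum.inr (w, L))
    have b4 := h (Sum.inr (w, min L i0))
    rw [e1]
    rw [abs_le] at *
    constructor <;> linarith [b1.1, b1.2, b2.1, b2.2, b3.1, b3.2, b4.1, b4.2]

end Pool.Agent.MP_9b8acd_an
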