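import Pool.Agent.MP_9b8acd_an.Lower

set_option autoImplicit false
open Finset Filter Topology
open scoped ENNReal

namespace Pool.Agent.MP_9b8acd_an

/-- The ambient space of bounded families indexed by the norming functionals. -/
abbrev Z : Type := lp (fun _ : Idx => ℝ) ∞

lemma abs_val_single_le (n : ℕ) (i : Idx) : |val i (Pi.single n 1)| ≤ 1 := by
  classical
  rcases i with G | ⟨w, L⟩
  · apply val_inl_le zero_le_one
    have : ∑ k ∈ G, |(Pi.single n (1 : ℝ) : ℕ → ℝ) k| = if n ∈ G then 1 else 0 := by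
      rw [← sum_pi_single' n (1 : ℝ) G]
      apply sum_congr rfl
      intro k _
      apply abs_of_nonneg
      rw [Pi.single_apply]; split_ifs <;> norm_num
    rw [this]
    split_ifs with h
    · rw [one_mul]
      apply Real.le_sqrt_of_sq_le
      have : 1 ≤ G.card := card_pos.2 ⟨n, h⟩
      exact_mod_cast this
    · positivity
  · simp only [val]
    calc _ ≤ ∑ j ∈ range L, |(∑ k ∈ blk j w, (Pi.single n (1 : ℝ) : ℕ → ℝ) k) / (M j : ℝ)| :=
          abs_sum_le_sum_abs _ _
      _ ≤ ∑ j ∈ Ico 0 L, (1 / M j : ℝ) := by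
          rw [← range_eq_Ico]
          apply sum_le_sum
          intro j _
          have hM := Mr_pos j
          rw [abs_div, abs_of_pos hM, sum_pi_single']
          apply div_le_div_of_nonneg_right _ hM.le
          split_ifs <;> simp
      _ ≤ 2 / M 0 := sum_inv_M_le' 0 L
      _ = 1 := by simp [M]

/-- The basis vectors in the ambient space. -/
noncomputable def E (n : ℕ) : Z :=
  ⟨fun i => val i (Pi.single n 1), memℓp_infty ⟨1, by
    rintro _ ⟨i, rfl⟩
    exact abs_val_single_le n i⟩⟩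

lemma E_apply (n : ℕ) (i : Idx) : E n i = val i (Pi.single n 1) := rfl

/-- Evaluation functionals. -/
noncomputable def ev (i : Idx) : Z →L[ℝ] ℝ := lp.evalCLM ℝ (fun _ : Idx => ℝ) ∞ i

lemma ev_apply (i : Idx) (x : Z) : ev i x = x i := rfl

/-- The closed span of the basis vectors. -/
noncomputable def XS : Submodule ℝ Z := (Submodule.span ℝ (Set.range E)).topologicalClosure

lemma isClosed_XS : IsClosed (XS : Set Z) := Submodule.isClosed_topologicalClosure _

instance : CompleteSpace XS := isClosed_XS.completeSpace_coe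

lemma E_mem (n : ℕ) : E n ∈ XS :=
  Submodule.le_topologicalClosure _ (Submodule.subset_span ⟨n, rfl⟩)

/-- Basis vectors. -/
noncomputable def e (n : ℕ) : XS := ⟨E n, E_mem n⟩

/-- Coordinate functionals. -/
noncomputable def e' (n : ℕ) : XS →L[ℝ] ℝ := (ev (Sum.inl {n})).comp XS.subtypeL

lemma e'_apply (n : ℕ) (x : XS) : e' n x = (x : Z) (Sum.inl {n}) := rfl

lemma biorth (i j : ℕ) : e' i (e j) = if i = j then 1 else 0 := by
  rw [e'_apply]
  show val (Sum.inl {i}) (Pi.single j 1) = _
  rw [val_singleton, Pi.single_apply]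

lemma repr_Z (x : Z) (hx : x ∈ XS) (i : Idx) : x i = val i (fun n => x (Sum.inl {n})) := by
  have hc : IsClosed {x : Z | x i = val i (fun n => x (Sum.inl {n}))} := by
    apply isClosed_eq (ev i).continuous
    exact (continuous_val i).comp (continuous_pi fun n => (ev (Sum.inl {n})).continuous)
  have hs : (Submodule.span ℝ (Set.range E) : Set Z) ⊆
      {x : Z | x i = val i (fun n => x (Sum.inl {n}))} := by
    intro y hy
    induction hy using Submodule.span_induction with
    | mem y hy =>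
      obtain ⟨n, rfl⟩ := hy
      show val i (Pi.single n 1) = val i (fun k => val (Sum.inl {k}) (Pi.single n 1))
      simp only [val_singleton]
    | zero =>
      show (0 : ℝ) = val i (fun _ => 0)
      have := val_smul i 0 0
      simp only [smul_zero, zero_mul] at this
      exact this.symm
    | add y z _ _ hy hz =>
      show y i + z i = val i ((fun n => y (Sum.inl {n})) + fun n => z (Sum.inl {n}))
      rw [val_add]
      exact congrArg₂ (· + ·) hy hz
    | smul c y _ hy =>
      show c * y i = val i (c • fun n => y (Sum.inl {n}))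
      rw [val_smul]
      exact congrArg (c * ·) hy
  exact closure_minimal hs hc hx

lemma repr_X (x : XS) (i : Idx) : (x : Z) i = val i (fun n => e' n x) := repr_Z x x.2 i

lemma abs_val_le (x : XS) (i : Idx) : |val i (fun n => e' n x)| ≤ ‖x‖ := by
  rw [← repr_X]
  exact lp.norm_apply_le_norm ENNReal.top_ne_zero (x : Z) i

lemma norm_le_of_val (x : XS) {K : ℝ} (hK : 0 ≤ K) (h : ∀ i, |val i (fun n => e' n x)| ≤ K) :
    ‖x‖ ≤ K := by
  show ‖(x : Z)‖ ≤ K
  apply lp.norm_le_of_forall_le hK
  intro i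
  rw [repr_X]
  exact h i

lemma total (x : XS) (h : ∀ i, e' i x = 0) : x = 0 := by
  rw [← norm_le_zero_iff]
  apply norm_le_of_val x le_rfl
  intro i
  have h1 : (fun n => e' n x) = (0 : ℝ) • (0 : ℕ → ℝ) := by ext n; simp [h n]
  rw [h1, val_smul]; simp

lemma dense_span : Dense ((Submodule.span ℝ (Set.range e) : Submodule ℝ XS) : Set XS) := by
  rw [Subtype.dense_iff]
  have h : ((↑) : XS → Z) '' (Submodule.span ℝ (Set.range e) : Submodule ℝ XS) =
      (Submodule.span ℝ (Set.range E) : Submodule ℝ Z) := by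
    have h1 := Submodule.map_span XS.subtype (Set.range e)
    have h2 : XS.subtype '' Set.range e = Set.range E := by
      rw [← Set.range_comp]; rfl
    rw [h2] at h1
    rw [← h1]
    rfl
  intro x hx
  have hx' : x ∈ closure ((Submodule.span ℝ (Set.range E) : Submodule ℝ Z) : Set Z) := hx
  rw [← h] at hx'
  exact hx'

lemma coord_sum (A : Finset ℕ) (c : ℕ → ℝ) (n : ℕ) :
    e' n (∑ i ∈ A, c i • e i) = if n ∈ A then c n else 0 := by
  rw [map_sum]
  simp only [map_smul, biorth, smul_eq_mul, mul_ite, mul_one, mul_zero]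
  rw [sum_ite_eq]

lemma coord_sub (x : XS) (A : Finset ℕ) :
    (fun n => e' n (x - ∑ i ∈ A, e' i x • e i)) = fun n => if n ∈ A then 0 else e' n x := by
  ext n
  rw [map_sub, coord_sum]
  split_ifs <;> simp

theorem almost_greedy (x : XS) (A B : Finset ℕ)
    (hA : ∀ i ∈ A, ∀ j : ℕ, j ∉ A → ‖e' j x‖ ≤ ‖e' i x‖) (hB : B.card ≤ A.card) :
    ‖x - ∑ i ∈ A, e' i x • e i‖ ≤ 14 * ‖x - ∑ i ∈ B, e' i x • e i‖ := by
  apply norm_le_of_val _ (by positivity)
  intro i
  rw [coord_sub]
  apply almost_greedy_seq (fun n => e' n x) A B hA hB _ (norm_nonneg _)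
  intro k
  have := abs_val_le (x - ∑ i ∈ B, e' i x • e i) k
  rwa [coord_sub] at this

lemma abs_e'_le (n : ℕ) (x : XS) : |e' n x| ≤ ‖x‖ := by
  have := abs_val_le x (Sum.inl {n})
  rwa [val_singleton] at this

lemma norm_e (n : ℕ) : ‖e n‖ = 1 := by
  apply le_antisymm
  · show ‖E n‖ ≤ 1
    exact lp.norm_le_of_forall_le zero_le_one fun i => abs_val_single_le n i
  · have := abs_e'_le n (e n)
    simpa [biorth] using this

lemma norm_e' (n : ℕ) : ‖e' n‖ = 1 := by
  apply le_antisymm
  · exact ContinuousLinearMap.opNorm_le_bound _ zero_le_one fun x => by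
      rw [one_mul]; exact abs_e'_le n x
  · have := (e' n).le_opNorm (e n)
    rw [norm_e, biorth, if_pos rfl, norm_one, mul_one] at this
    exact this

theorem unbounded_partial_sums (π : Equiv.Perm ℕ) (C : ℝ) :
    ∃ (x : XS) (n : ℕ), C * ‖x‖ < ‖∑ k ∈ range n, e' (π k) x • e (π k)‖ := by
  obtain ⟨L, hL⟩ := exists_nat_gt (32 * |C|)
  obtain ⟨a, S, r, i0, hS, ha, hlow⟩ := lower_seq π.symm π.symm.injective L
  set x : XS := ∑ i ∈ S, a i • e i with hx
  have hxa : ∀ n, e' n x = a n := by
    intro n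
    rw [hx, coord_sum]
    split_ifs with hn
    · rfl
    · exact (hS n hn).symm
  have hxn : ‖x‖ ≤ 4 := by
    apply norm_le_of_val _ (by norm_num)
    intro i
    simp only [hxa]
    exact ha i
  refine ⟨x, r, ?_⟩
  have hTx : (fun n => e' n (∑ k ∈ range r, e' (π k) x • e (π k))) =
      fun n => if π.symm n < r then a n else 0 := by
    ext n
    have : ∑ k ∈ range r, e' (π k) x • e (π k) = ∑ i ∈ (range r).map π.toEmbedding, a i • e i := by
      rw [sum_map]
      simp only [hxa, Equiv.coe_toEmbedding]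
    rw [this, coord_sum]
    simp
  have h1 := abs_val_le (∑ k ∈ range r, e' (π k) x • e (π k)) i0
  rw [hTx] at h1
  have h2 : C * ‖x‖ ≤ |C| * 4 :=
    mul_le_mul (le_abs_self C) hxn (norm_nonneg _) (abs_nonneg _)
  have h3 := le_abs_self (val i0 fun n => if π.symm n < r then a n else 0)
  linarith

theorem not_schauder (π : Equiv.Perm ℕ) :
    ¬ ∀ x : XS, Tendsto (fun n : ℕ => ∑ k ∈ range n, e' (π k) x • e (π k)) atTop (𝓝 x) := by
  intro h
  let T : ℕ → XS →L[ℝ] XS := fun n => ∑ k ∈ range n, (e' (π k)).smulRight (e (π k))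
  have hT : ∀ n x, T n x = ∑ k ∈ range n, e' (π k) x • e (π k) := by
    intro n x
    simp [T]
  have hb : ∀ x, ∃ C, ∀ n, ‖T n x‖ ≤ C := by
    intro x
    have h1 := (h x).norm.bddAbove_range
    obtain ⟨C, hC⟩ := h1
    exact ⟨C, fun n => by rw [hT]; exact hC ⟨n, rfl⟩⟩
  obtain ⟨C, hC⟩ := banach_steinhaus hb
  obtain ⟨x, n, hx⟩ := unbounded_partial_sums π C
  have h2 : ‖T n x‖ ≤ C * ‖x‖ :=
    ((T n).le_opNorm x).trans (mul_le_mul_of_nonneg_right (hC n) (norm_nonneg _))
  rw [hT] at h2
  linarith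

end Pool.Agent.MP_9b8acd_an
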